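import Pool.Agent.helper45.WI.Wilf
import Pool.Agent.helper45.WI.Lower
import Pool.Agent.helper45.WI.Struct

/-! Two patterns that are Wilf-equivalent for inversion sequences but have different inversion
sequence basis types: `10126345` and `11026345`. -/

namespace Pool.Agent.Results.MP_3929a6_co.WilfNotISBT

open InvSeqPat

/-- The patterns `10126345` and `11026345` are Wilf-equivalent for inversion sequences, and their
inversion sequence basis types are different. -/
theorem result :
    IsPattern [1, 0, 1, 2, 6, 3, 4, 5] ∧ IsPattern [1, 1, 0, 2, 6, 3, 4, 5] ∧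
      WilfEquiv [1, 0, 1, 2, 6, 3, 4, 5] [1, 1, 0, 2, 6, 3, 4, 5] ∧
      ISBT [1, 0, 1, 2, 6, 3, 4, 5] ≠ ISBT [1, 1, 0, 2, 6, 3, 4, 5] := by
  refine ⟨isPattern_rho, isPattern_rho', wilfEquiv_pair, ?_⟩
  intro h
  have h1 : ISBT rho = ISBT rho' := h
  unfold ISBT at h1
  rw [mdd_rho, mdd_rho'] at h1
  have h2 : isbtEntry rho 2 = isbtEntry rho' 2 := by
    have h3 := congrArg (fun l => l.getD 2 0) h1
    have e : (Int.toNat 2 + 1) = 3 := rfl
    rw [e] at h3
    simpa [List.range_succ] using h3
  have h4 := lower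
  have h5 := upper
  omega

end Pool.Agent.Results.MP_3929a6_co.WilfNotISBT
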